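import Mathlib
import Pool.Agent.Q102.Trade3Main
import Pool.Agent.Q102.Trade4Main

/-!
MP_2bafa0_co, Q1: the unbounded values of `t` are exactly the `t ≥ 4`.
-/

namespace Pool.Agent.Results.MP_2bafa0_co.UnboundedTypes

open Finset Pool.Agent.Q102.Trade

/-- there is a sequence `(G_k)` (`k ≥ 2`) of complete simple games with exactly `t` types of voters
such that `G_k` is `k`-trade robust but not `(k + 1)`-trade robust -/
def Unbounded (t : ℕ) : Prop :=
  ∀ k : ℕ, 2 ≤ k → ∃ (N : Type) (_ : Fintype N) (_ : DecidableEq N) (W : Finset N → Prop),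
    IsSimple W ∧ Complete W ∧ numTypes W = t ∧ TradeRobust k W ∧ ¬ TradeRobust (k + 1) W

/-- **Q1 of MP_2bafa0_co.** A positive integer `t` is unbounded if and only if `t ≥ 4`. -/
theorem result (t : ℕ) (_ht : 1 ≤ t) : Unbounded t ↔ 4 ≤ t := by
  constructor
  · intro h
    by_contra hlt
    obtain ⟨N, i1, i2, W, h1, h2, h3, h4, h5⟩ := h 3 (by norm_num)
    exact h5 (tradeRobust_of_weighted (weighted_of_le_three h1 (by omega) h4) _)
  · intro h k hk
    obtain ⟨N, i1, i2, W, h1, h2, -, h3, -, h4, h5⟩ := exists_game (t - 4) k hk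
    exact ⟨N, i1, i2, W, h1, h2, by omega, h4, h5⟩

end Pool.Agent.Results.MP_2bafa0_co.UnboundedTypes
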